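import Mathlib

namespace Pool.Agent.Results.MP_4451bf_co.CliqueThreshold

open Finset

/-- `Blue G B v`: the vertex `v` becomes blue when the zero forcing colour-change rule is applied
repeatedly, starting with exactly the vertices of `B` blue.  A blue vertex `u` forces its
neighbour `v` when every neighbour of `u` other than `v` is already blue. -/
inductive Blue {V : Type*} (G : SimpleGraph V) (B : Set V) : V → Prop
  | init {v : V} : v ∈ B → Blue G B v
  | force {u v : V} : Blue G B u → G.Adj u v →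
      (∀ w, G.Adj u w → w ≠ v → Blue G B w) → Blue G B v

/-- `B` is a zero forcing set of `G`: every vertex eventually becomes blue. -/
def IsZeroForcing {V : Type*} (G : SimpleGraph V) (B : Set V) : Prop := ∀ v, Blue G B v

open scoped Classical in
/-- The probability that the random set `B_p(G)`, which contains each vertex independently with
probability `p`, is a zero forcing set of `G`. -/
noncomputable def zfProb {V : Type*} [Fintype V] (G : SimpleGraph V) (p : ℝ) : ℝ :=
  ∑ B : Finset V, if IsZeroForcing G (B : Set V) then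
    p ^ B.card * (1 - p) ^ (Fintype.card V - B.card) else 0

/-- `p` is the threshold probability `p_c(G)`. -/
def IsThreshold {V : Type*} [Fintype V] (G : SimpleGraph V) (p : ℝ) : Prop :=
  0 ≤ p ∧ p ≤ 1 ∧ zfProb G p = 1 / 2

/-! ### Probability of product events -/

section Prob

variable {V : Type*} [Fintype V] [DecidableEq V]

/-- the weight of a set -/
noncomputable def wt (p : ℝ) (B : Finset V) : ℝ :=
  p ^ B.card * (1 - p) ^ (Fintype.card V - B.card)

omit [DecidableEq V] in
lemma wt_nonneg {p : ℝ} (h0 : 0 ≤ p) (h1 : p ≤ 1) (B : Finset V) : 0 ≤ wt p B := by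
  unfold wt
  have : 0 ≤ 1 - p := by linarith
  positivity

lemma wt_eq_prod (p : ℝ) (B : Finset V) :
    wt p B = (∏ _v ∈ B, p) * ∏ _v ∈ univ \ B, (1 - p) := by
  unfold wt
  rw [prod_const, prod_const]
  congr 2
  rw [card_univ_sdiff]

lemma sum_superset (p : ℝ) (S : Finset V) :
    ∑ B : Finset V, (if S ⊆ B then wt p B else 0) = p ^ S.card := by
  have h1 : ∀ B : Finset V, (if S ⊆ B then wt p B else 0)
      = (∏ v ∈ B, p) * ∏ v ∈ univ \ B, (if v ∈ S then 0 else (1 - p)) := by
    intro B
    split_ifs with h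
    · rw [wt_eq_prod]
      congr 1
      apply prod_congr rfl
      intro v hv
      rw [if_neg]
      intro hS
      exact (mem_sdiff.1 hv).2 (h hS)
    · rw [not_subset] at h
      obtain ⟨v, hv, hvB⟩ := h
      have : ∏ v ∈ univ \ B, (if v ∈ S then 0 else (1 - p)) = 0 := by
        apply prod_eq_zero (i := v)
        · simp [hvB]
        · simp [hv]
      rw [this, mul_zero]
  rw [sum_congr rfl (fun B _ => h1 B)]
  have h2 := prod_add (fun _ : V => p) (fun v : V => if v ∈ S then (0:ℝ) else (1 - p)) univ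
  rw [powerset_univ] at h2
  rw [← h2]
  have h3 : ∀ v : V, (p + if v ∈ S then (0:ℝ) else 1 - p) = if v ∈ S then p else 1 := by
    intro v; split_ifs <;> ring
  rw [prod_congr rfl (fun v _ => h3 v), prod_ite_mem]
  simp

lemma sum_wt (p : ℝ) : ∑ B : Finset V, wt p B = 1 := by
  have := sum_superset (V := V) p ∅
  simpa using this

/-- independence of disjoint blocks: the probability that no block is contained in `B` -/
lemma prob_no_block (p : ℝ) {ι : Type*} [DecidableEq ι] (I : Finset ι) (T : ι → Finset V)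
    [∀ B : Finset V, Decidable (∀ i ∈ I, ¬ T i ⊆ B)]
    (hT : ∀ i ∈ I, ∀ j ∈ I, i ≠ j → Disjoint (T i) (T j)) :
    ∑ B : Finset V, (if ∀ i ∈ I, ¬ T i ⊆ B then wt p B else 0)
      = ∏ i ∈ I, (1 - p ^ (T i).card) := by
  have h1 : ∀ B : Finset V, (if ∀ i ∈ I, ¬ T i ⊆ B then wt p B else 0)
      = ∑ J ∈ I.powerset, (-1) ^ J.card * (if J.biUnion T ⊆ B then wt p B else 0) := by
    intro B
    have h2 : (if ∀ i ∈ I, ¬ T i ⊆ B then (1:ℝ) else 0)
        = ∏ i ∈ I, (1 - (if T i ⊆ B then (1:ℝ) else 0)) := by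
      split_ifs with h
      · rw [prod_eq_one]
        intro i hi
        rw [if_neg (h i hi)]; ring
      · push Not at h
        obtain ⟨i, hi, hiB⟩ := h
        rw [prod_eq_zero hi]
        rw [if_pos hiB]; ring
    have h3 : (if ∀ i ∈ I, ¬ T i ⊆ B then wt p B else 0)
        = wt p B * (if ∀ i ∈ I, ¬ T i ⊆ B then (1:ℝ) else 0) := by
      split_ifs <;> simp
    rw [h3, h2]
    have h4 : ∀ i, (1 - (if T i ⊆ B then (1:ℝ) else 0)) = (- (if T i ⊆ B then (1:ℝ) else 0)) + 1 := by
      intro i; ring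
    rw [prod_congr rfl (fun i _ => h4 i), prod_add, mul_sum]
    apply sum_congr rfl
    intro J hJ
    rw [prod_const_one, mul_one, prod_neg]
    have h5 : ∏ i ∈ J, (if T i ⊆ B then (1:ℝ) else 0) = if J.biUnion T ⊆ B then 1 else 0 := by
      rw [prod_ite_zero]
      simp only [biUnion_subset, prod_const_one]
    rw [h5]
    split_ifs <;> ring
  rw [sum_congr rfl (fun B _ => h1 B), sum_comm]
  have h6 : ∀ J ∈ I.powerset,
      ∑ B : Finset V, (-1) ^ J.card * (if J.biUnion T ⊆ B then wt p B else 0)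
        = ∏ i ∈ J, (- p ^ (T i).card) := by
    intro J hJ
    rw [mem_powerset] at hJ
    rw [← mul_sum, sum_superset, card_biUnion, ← prod_pow_eq_pow_sum, prod_neg]
    intro i hi j hj hij
    exact hT i (hJ hi) j (hJ hj) hij
  rw [sum_congr rfl h6]
  have h7 : ∀ i, (1 - p ^ (T i).card) = (- p ^ (T i).card) + 1 := by intro i; ring
  rw [prod_congr rfl (fun i _ => h7 i), prod_add]
  apply sum_congr rfl
  intro J _
  rw [prod_const_one, mul_one]

end Prob

/-! ### The graph -/

/-- The vertex set: an `m × (m+1)` grid (whose last row will be the clique), and `s` paths with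
`2 * l` vertices each. -/
abbrev W (m s l : ℕ) : Type := (Fin m × Fin (m + 1)) ⊕ (Fin s × Fin (2 * l))

/-- adjacency (one orientation) -/
def adjRel (m s l : ℕ) : W m s l → W m s l → Prop
  | Sum.inl (x, y), Sum.inl (x', y') =>
      (x.val = x'.val ∧ y.val + 1 = y'.val) ∨ (y.val = y'.val ∧ x.val + 1 = x'.val) ∨
      (y.val = m ∧ y'.val = m ∧ x.val ≠ x'.val)
  | Sum.inl (x, y), Sum.inr (j, i) => x.val = j.val ∧ y.val = 0 ∧ i.val + 1 = 2 * l
  | Sum.inr _, Sum.inl _ => False
  | Sum.inr (j, i), Sum.inr (j', i') => j.val = j'.val ∧ i.val + 1 = i'.val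

/-- the graph -/
def H (m s l : ℕ) : SimpleGraph (W m s l) := SimpleGraph.fromRel (adjRel m s l)

lemma adj_iff {m s l : ℕ} (a b : W m s l) :
    (H m s l).Adj a b ↔ a ≠ b ∧ (adjRel m s l a b ∨ adjRel m s l b a) := by
  simp [H, SimpleGraph.fromRel_adj]

section Forcing

variable {m s l : ℕ} {B : Set (W m s l)}

/-- neighbours of a path vertex -/
lemma adj_path {j : Fin s} {i : Fin (2 * l)} {w : W m s l}
    (h : (H m s l).Adj (Sum.inr (j, i)) w) :
    (∃ i' : Fin (2 * l), w = Sum.inr (j, i') ∧ (i.val + 1 = i'.val ∨ i'.val + 1 = i.val)) ∨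
    (∃ (x : Fin m) (y : Fin (m + 1)), w = Sum.inl (x, y) ∧ x.val = j.val ∧ y.val = 0 ∧
      i.val + 1 = 2 * l) := by
  rw [adj_iff] at h
  obtain ⟨_, h⟩ := h
  rcases w with ⟨x, y⟩ | ⟨j', i'⟩
  · right
    simp only [adjRel, false_or] at h
    exact ⟨x, y, rfl, h.1, h.2.1, h.2.2⟩
  · left
    simp only [adjRel] at h
    rcases h with h | h
    · have : j = j' := Fin.ext h.1
      subst this
      exact ⟨i', rfl, Or.inl h.2⟩
    · have : j' = j := Fin.ext h.1
      subst this
      exact ⟨i', rfl, Or.inr h.2⟩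

/-- neighbours of a grid vertex not in the clique row -/
lemma adj_grid {x : Fin m} {y : Fin (m + 1)} (hy : y.val < m) {w : W m s l}
    (h : (H m s l).Adj (Sum.inl (x, y)) w) :
    (∃ (x' : Fin m) (y' : Fin (m + 1)), w = Sum.inl (x', y') ∧
      ((x'.val = x.val ∧ y'.val = y.val + 1) ∨ (x'.val = x.val + 1 ∧ y'.val = y.val) ∨
       (x'.val = x.val ∧ y'.val + 1 = y.val) ∨ (x'.val + 1 = x.val ∧ y'.val = y.val))) ∨
    (∃ (j : Fin s) (i : Fin (2 * l)), w = Sum.inr (j, i) ∧ x.val = j.val ∧ y.val = 0 ∧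
      i.val + 1 = 2 * l) := by
  rw [adj_iff] at h
  obtain ⟨_, h⟩ := h
  rcases w with ⟨x', y'⟩ | ⟨j', i'⟩
  · left
    refine ⟨x', y', rfl, ?_⟩
    simp only [adjRel] at h
    omega
  · right
    simp only [adjRel, or_false] at h
    exact ⟨j', i', rfl, h.1, h.2.1, h.2.2⟩

/-- a path with two consecutive vertices `2t, 2t+1` in `B` becomes blue to the right -/
lemma path_right (j : Fin s) (t : ℕ) (ht : 2 * t + 1 < 2 * l)
    (h0 : Sum.inr (j, ⟨2 * t, by omega⟩) ∈ B) (h1 : Sum.inr (j, ⟨2 * t + 1, ht⟩) ∈ B) :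
    ∀ d, ∀ hd : 2 * t + d < 2 * l, Blue (H m s l) B (Sum.inr (j, ⟨2 * t + d, hd⟩)) := by
  intro d
  induction d using Nat.strong_induction_on with
  | _ d ih =>
    intro hd
    rcases Nat.lt_or_ge d 2 with h | h
    · interval_cases d
      · exact Blue.init h0
      · exact Blue.init h1
    · obtain ⟨e, rfl⟩ : ∃ e, d = e + 2 := ⟨d - 2, by omega⟩
      have hb := ih (e + 1) (by omega) (by omega)
      refine Blue.force hb ?_ ?_
      · rw [adj_iff]
        refine ⟨?_, Or.inl ?_⟩
        · intro h; simp at h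
        · change j.val = j.val ∧ 2 * t + (e + 1) + 1 = 2 * t + (e + 2)
          omega
      · intro w hw hne
        rcases adj_path hw with ⟨i', rfl, hi⟩ | ⟨x, y, rfl, _, _, hh⟩
        · simp only at hi
          rcases hi with hi | hi
          · exfalso
            apply hne
            congr 2
            apply Fin.ext
            simp only
            omega
          · have : i' = ⟨2 * t + e, by omega⟩ := Fin.ext (by simp only; omega)
            rw [this]
            exact ih e (by omega) (by omega)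
        · simp only at hh
          omega

/-- ... and to the left -/
lemma path_left (j : Fin s) (t : ℕ) (ht : 2 * t + 1 < 2 * l)
    (h0 : Sum.inr (j, ⟨2 * t, by omega⟩) ∈ B) (h1 : Sum.inr (j, ⟨2 * t + 1, ht⟩) ∈ B) :
    ∀ d, ∀ hd : d ≤ 2 * t + 1, Blue (H m s l) B (Sum.inr (j, ⟨2 * t + 1 - d, by omega⟩)) := by
  intro d
  induction d using Nat.strong_induction_on with
  | _ d ih =>
    intro hd
    rcases Nat.lt_or_ge d 2 with h | h
    · interval_cases d
      · exact Blue.init h1
      · exact Blue.init h0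
    · obtain ⟨e, rfl⟩ : ∃ e, d = e + 2 := ⟨d - 2, by omega⟩
      have hb := ih (e + 1) (by omega) (by omega)
      refine Blue.force hb ?_ ?_
      · rw [adj_iff]
        refine ⟨?_, Or.inr ?_⟩
        · intro h; simp at h; omega
        · change j.val = j.val ∧ (2 * t + 1 - (e + 2)) + 1 = 2 * t + 1 - (e + 1)
          omega
      · intro w hw hne
        rcases adj_path hw with ⟨i', rfl, hi⟩ | ⟨x, y, rfl, _, _, hh⟩
        · simp only at hi
          rcases hi with hi | hi
          · have : i' = ⟨2 * t + 1 - e, by omega⟩ := Fin.ext (by simp only; omega)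
            rw [this]
            exact ih e (by omega) (by omega)
          · exfalso
            apply hne
            congr 2
            apply Fin.ext
            simp only
            omega
        · simp only at hh
          omega

/-- the hypothesis on paths: each path contains one of its `l` disjoint pairs -/
def PathsOK (B : Set (W m s l)) : Prop :=
  ∀ j : Fin s, ∃ t : ℕ, ∃ ht : 2 * t + 1 < 2 * l,
    Sum.inr (j, ⟨2 * t, by omega⟩) ∈ B ∧ Sum.inr (j, ⟨2 * t + 1, ht⟩) ∈ B

lemma path_all (hB : PathsOK B) (j : Fin s) (i : Fin (2 * l)) :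
    Blue (H m s l) B (Sum.inr (j, i)) := by
  obtain ⟨t, ht, h0, h1⟩ := hB j
  rcases Nat.lt_or_ge i.val (2 * t) with h | h
  · have := path_left j t ht h0 h1 (2 * t + 1 - i.val) (by omega)
    have e : (⟨2 * t + 1 - (2 * t + 1 - i.val), by omega⟩ : Fin (2 * l)) = i :=
      Fin.ext (by simp only; omega)
    rwa [e] at this
  · have := path_right j t ht h0 h1 (i.val - 2 * t) (by omega)
    have e : (⟨2 * t + (i.val - 2 * t), by omega⟩ : Fin (2 * l)) = i :=
      Fin.ext (by simp only; omega)
    rwa [e] at this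

/-- the grid vertices attached to paths become blue -/
lemma foot (hB : PathsOK B) (x : Fin m) (hx : x.val < s) :
    Blue (H m s l) B (Sum.inl (x, ⟨0, by omega⟩)) := by
  obtain ⟨t, ht, _, _⟩ := hB ⟨x.val, hx⟩
  refine Blue.force (u := Sum.inr (⟨x.val, hx⟩, ⟨2 * l - 1, by omega⟩)) (path_all hB _ _) ?_ ?_
  · rw [adj_iff]
    refine ⟨by simp, Or.inr ?_⟩
    simp only [adjRel]
    exact ⟨trivial, trivial, by omega⟩
  · intro w hw hne
    rcases adj_path hw with ⟨i', rfl, _⟩ | ⟨x', y, rfl, hx', hy, _⟩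
    · exact path_all hB _ _
    · exfalso
      apply hne
      have e1 : x' = x := Fin.ext hx'
      have e2 : y = ⟨0, by omega⟩ := Fin.ext hy
      rw [e1, e2]

/-- forcing inside the grid: `(x, y)` with `y < m` forces a neighbour in the next layer -/
lemma grid_force (hB : PathsOK B) {d : ℕ}
    (hd : ∀ (x : Fin m) (y : Fin (m + 1)), x.val + y.val ≤ d →
      Blue (H m s l) B (Sum.inl (x, y)))
    (x : Fin m) (y : Fin (m + 1)) (hxy : x.val + y.val = d) (hy : y.val < m)
    (a b : W m s l)
    (ha : ∀ h : x.val + 1 < m, a = Sum.inl (⟨x.val + 1, h⟩, y))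
    (hb : b = Sum.inl (x, ⟨y.val + 1, by omega⟩)) :
    ((x.val + 1 < m) → Blue (H m s l) B b → Blue (H m s l) B a) ∧
    ((x.val + 1 < m → Blue (H m s l) B a) → Blue (H m s l) B b) := by
  have hblue : Blue (H m s l) B (Sum.inl (x, y)) := hd x y hxy.le
  refine ⟨?_, ?_⟩
  · intro hx hbb
    have ha' := ha hx
    refine Blue.force hblue ?_ ?_
    · rw [adj_iff, ha']
      refine ⟨?_, Or.inl ?_⟩
      · intro h
        have := congrArg (fun z : W m s l => match z with | Sum.inl (x, _) => x.val | _ => 0) h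
        simp at this
      · simp [adjRel]
    · intro w hw hne
      rcases adj_grid hy hw with ⟨x', y', rfl, h⟩ | ⟨j, i, rfl, _⟩
      · rcases h with h | h | h | h
        · have e1 : x' = x := Fin.ext h.1
          have e2 : y' = ⟨y.val + 1, by omega⟩ := Fin.ext h.2
          rw [e1, e2, ← hb]
          exact hbb
        · exfalso
          apply hne
          rw [ha']
          have e1 : x' = ⟨x.val + 1, hx⟩ := Fin.ext h.1
          have e2 : y' = y := Fin.ext h.2
          rw [e1, e2]
        · exact hd _ _ (by omega)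
        · exact hd _ _ (by omega)
      · exact path_all hB _ _
  · intro haa
    refine Blue.force hblue ?_ ?_
    · rw [adj_iff, hb]
      refine ⟨?_, Or.inl ?_⟩
      · intro h
        have := congrArg (fun z : W m s l => match z with | Sum.inl (_, y) => y.val | _ => 0) h
        simp at this
      · simp [adjRel]
    · intro w hw hne
      rcases adj_grid hy hw with ⟨x', y', rfl, h⟩ | ⟨j, i, rfl, _⟩
      · rcases h with h | h | h | h
        · exfalso
          apply hne
          rw [hb]
          have e1 : x' = x := Fin.ext h.1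
          have e2 : y' = ⟨y.val + 1, by omega⟩ := Fin.ext h.2
          rw [e1, e2]
        · have hx : x.val + 1 < m := by omega
          have e1 : x' = ⟨x.val + 1, hx⟩ := Fin.ext h.1
          have e2 : y' = y := Fin.ext h.2
          rw [e1, e2, ← ha hx]
          exact haa hx
        · exact hd _ _ (by omega)
        · exact hd _ _ (by omega)
      · exact path_all hB _ _

/-- from one blue vertex in layer `d + 1`, the layer spreads upwards -/
lemma spread_up (hB : PathsOK B) {d : ℕ}
    (hd : ∀ (x : Fin m) (y : Fin (m + 1)), x.val + y.val ≤ d →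
      Blue (H m s l) B (Sum.inl (x, y)))
    (x : ℕ) (y : ℕ) (hx : x < m) (hy : y < m + 1) (hxy : x + y = d + 1)
    (hb : Blue (H m s l) B (Sum.inl (⟨x, hx⟩, ⟨y, hy⟩))) :
    ∀ i, ∀ hi : i ≤ x, ∀ hy' : y + i < m + 1,
      Blue (H m s l) B (Sum.inl (⟨x - i, by omega⟩, ⟨y + i, hy'⟩)) := by
  intro i
  induction i with
  | zero => intro _ _; exact hb
  | succ i ih =>
    intro hi hy'
    have h1 := ih (by omega) (by omega)
    have h2 := (grid_force hB hd ⟨x - (i + 1), by omega⟩ ⟨y + i, by omega⟩
      (by simp only; omega) (by simp only; omega)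
      (Sum.inl (⟨x - i, by omega⟩, ⟨y + i, by omega⟩))
      (Sum.inl (⟨x - (i + 1), by omega⟩, ⟨y + (i + 1), by omega⟩))
      (by
        intro h
        congr 2
        apply Fin.ext
        simp only
        omega) rfl).2 (fun _ => h1)
    exact h2

/-- ... and downwards -/
lemma spread_down (hB : PathsOK B) {d : ℕ}
    (hd : ∀ (x : Fin m) (y : Fin (m + 1)), x.val + y.val ≤ d →
      Blue (H m s l) B (Sum.inl (x, y)))
    (x : ℕ) (y : ℕ) (hx : x < m) (hy : y < m + 1) (hxy : x + y = d + 1)
    (hb : Blue (H m s l) B (Sum.inl (⟨x, hx⟩, ⟨y, hy⟩))) :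
    ∀ i, ∀ hi : i ≤ y, ∀ hx' : x + i < m,
      Blue (H m s l) B (Sum.inl (⟨x + i, hx'⟩, ⟨y - i, by omega⟩)) := by
  intro i
  induction i with
  | zero => intro _ _; exact hb
  | succ i ih =>
    intro hi hx'
    have h1 := ih (by omega) (by omega)
    have h2 := (grid_force hB hd ⟨x + i, by omega⟩ ⟨y - (i + 1), by omega⟩
      (by simp only; omega) (by simp only; omega)
      (Sum.inl (⟨x + (i + 1), by omega⟩, ⟨y - (i + 1), by omega⟩))
      (Sum.inl (⟨x + i, by omega⟩, ⟨y - i, by omega⟩))
      (by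
        intro h
        rfl) (by
        congr 2
        apply Fin.ext
        simp only
        omega)).1 (by simp only; omega) h1
    exact h2

/-- the hypothesis on layers `s ≤ d < m` -/
def LayersOK (B : Set (W m s l)) : Prop :=
  ∀ d : ℕ, s ≤ d → d < m → ∃ (x : Fin m) (y : Fin (m + 1)), x.val + y.val = d ∧
    Sum.inl (x, y) ∈ B

lemma grid_all (hB : PathsOK B) (hL : LayersOK B) :
    ∀ d : ℕ, ∀ (x : Fin m) (y : Fin (m + 1)), x.val + y.val ≤ d →
      Blue (H m s l) B (Sum.inl (x, y)) := by
  -- every layer contains a blue vertex once the previous layers are blue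
  have start : ∀ d : ℕ, (∀ (x : Fin m) (y : Fin (m + 1)), x.val + y.val < d →
      Blue (H m s l) B (Sum.inl (x, y))) → ∀ (x : Fin m) (y : Fin (m + 1)), x.val + y.val = d →
      ∃ (x' : Fin m) (y' : Fin (m + 1)), x'.val + y'.val = d ∧
        Blue (H m s l) B (Sum.inl (x', y')) := by
    intro d hd x y hxy
    rcases Nat.lt_or_ge d m with hm | hm
    · rcases Nat.lt_or_ge d s with hs | hs
      · exact ⟨⟨d, hm⟩, ⟨0, by omega⟩, by simp, foot hB ⟨d, hm⟩ hs⟩
      · obtain ⟨x', y', h, hmem⟩ := hL d hs hm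
        exact ⟨x', y', h, Blue.init hmem⟩
    · have hx := x.isLt
      have hy := y.isLt
      obtain ⟨e, rfl⟩ : ∃ e, d = e + 1 := ⟨d - 1, by omega⟩
      refine ⟨⟨m - 1, by omega⟩, ⟨e - (m - 1) + 1, by omega⟩, by simp only; omega, ?_⟩
      have h2 := (grid_force hB (d := e) (fun x y h => hd x y (by omega)) ⟨m - 1, by omega⟩
        ⟨e - (m - 1), by omega⟩
        (by simp only; omega) (by simp only; omega)
        (Sum.inl (⟨m - 1, by omega⟩, ⟨e - (m - 1) + 1, by omega⟩))
        (Sum.inl (⟨m - 1, by omega⟩, ⟨e - (m - 1) + 1, by omega⟩))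
        (by
          intro h
          simp only at h
          omega) rfl).2 (by simp only; intro h; omega)
      exact h2
  intro d
  induction d with
  | zero =>
    intro x y hxy
    obtain ⟨x', y', h, hb⟩ := start 0 (by intro x y h; omega) x y (by omega)
    have e1 : x' = x := Fin.ext (by omega)
    have e2 : y' = y := Fin.ext (by omega)
    rwa [e1, e2] at hb
  | succ d ih =>
    intro x y hxy
    rcases Nat.lt_or_ge (x.val + y.val) (d + 1) with h | h
    · exact ih x y (by omega)
    · have hxy' : x.val + y.val = d + 1 := by omega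
      obtain ⟨x', y', h', hb⟩ := start (d + 1) (fun x y h => ih x y (by omega)) x y hxy'
      rcases Nat.lt_or_ge x'.val x.val with hlt | hge
      · have := spread_down hB ih x'.val y'.val x'.isLt y'.isLt h' hb (x.val - x'.val)
          (by omega) (by omega)
        have e1 : (⟨x'.val + (x.val - x'.val), by omega⟩ : Fin m) = x :=
          Fin.ext (by simp only; omega)
        have e2 : (⟨y'.val - (x.val - x'.val), by omega⟩ : Fin (m + 1)) = y :=
          Fin.ext (by simp only; omega)
        rwa [e1, e2] at this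
      · have := spread_up hB ih x'.val y'.val x'.isLt y'.isLt h' hb (x'.val - x.val)
          (by omega) (by omega)
        have e1 : (⟨x'.val - (x'.val - x.val), by omega⟩ : Fin m) = x :=
          Fin.ext (by simp only; omega)
        have e2 : (⟨y'.val + (x'.val - x.val), by omega⟩ : Fin (m + 1)) = y :=
          Fin.ext (by simp only; omega)
        rwa [e1, e2] at this

theorem zeroForcing_of_ok (hB : PathsOK B) (hL : LayersOK B) : IsZeroForcing (H m s l) B := by
  intro v
  rcases v with ⟨x, y⟩ | ⟨j, i⟩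
  · exact grid_all hB hL _ x y le_rfl
  · exact path_all hB j i

end Forcing

/-! ### The probability bound -/

lemma zfProb_eq {V : Type*} [Fintype V] (G : SimpleGraph V) (p : ℝ)
    [DecidablePred fun B : Finset V => IsZeroForcing G (B : Set V)] :
    zfProb G p = ∑ B : Finset V, if IsZeroForcing G (B : Set V) then wt p B else 0 := by
  unfold zfProb wt
  apply sum_congr rfl
  intro B _
  split_ifs <;> rfl

/-- the pairs on the `j`-th path -/
def pairT {m s l : ℕ} (j : Fin s) (t : Fin l) : Finset (W m s l) :=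
  {Sum.inr (j, ⟨2 * t.val, by omega⟩), Sum.inr (j, ⟨2 * t.val + 1, by omega⟩)}

/-- the cells of layer `d < m` -/
def cellT {m s l : ℕ} (d : ℕ) (hd : d < m) (x : Fin (d + 1)) : Finset (W m s l) :=
  {Sum.inl (⟨x.val, by omega⟩, ⟨d - x.val, by omega⟩)}

lemma prob_pairs {m s l : ℕ} (p : ℝ) (j : Fin s) :
    ∑ B : Finset (W m s l), (if ∀ t ∈ (univ : Finset (Fin l)), ¬ pairT j t ⊆ B then wt p B else 0)
      = (1 - p ^ 2) ^ l := by
  rw [prob_no_block]
  · have : ∀ t ∈ (univ : Finset (Fin l)), 1 - p ^ (pairT (m := m) j t).card = 1 - p ^ 2 := by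
      intro t _
      unfold pairT
      rw [card_pair]
      intro h
      simp at h
    rw [prod_congr rfl this]
    simp
  · intro t _ t' _ htt'
    have : t.val ≠ t'.val := fun h => htt' (Fin.ext h)
    unfold pairT
    simp only [disjoint_insert_left, disjoint_singleton_left, mem_insert, mem_singleton,
      Sum.inr.injEq, Prod.mk.injEq, Fin.mk.injEq, true_and]
    omega

lemma prob_layer {m s l : ℕ} (p : ℝ) (d : ℕ) (hd : d < m) :
    ∑ B : Finset (W m s l), (if ∀ x ∈ (univ : Finset (Fin (d + 1))), ¬ cellT d hd x ⊆ B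
      then wt p B else 0) = (1 - p) ^ (d + 1) := by
  rw [prob_no_block]
  · have : ∀ x ∈ (univ : Finset (Fin (d + 1))),
        1 - p ^ (cellT (s := s) (l := l) d hd x).card = 1 - p := by
      intro x _
      unfold cellT
      rw [card_singleton, pow_one]
    rw [prod_congr rfl this]
    simp
  · intro x _ x' _ hxx'
    have : x.val ≠ x'.val := fun h => hxx' (Fin.ext h)
    unfold cellT
    simp only [disjoint_singleton_left, mem_singleton, Sum.inl.injEq, Prod.mk.injEq,
      Fin.mk.injEq]
    omega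

lemma zfProb_ge {m s l : ℕ} {p : ℝ} (h0 : 0 ≤ p) (h1 : p ≤ 1) :
    1 - s * (1 - p ^ 2) ^ l - m * (1 - p) ^ s ≤ zfProb (H m s l) p := by
  classical
  rw [zfProb_eq]
  have key : ∀ B : Finset (W m s l), wt p B ≤
      (if IsZeroForcing (H m s l) (B : Set (W m s l)) then wt p B else 0)
      + ∑ j : Fin s, (if ∀ t ∈ (univ : Finset (Fin l)), ¬ pairT j t ⊆ B then wt p B else 0)
      + ∑ d : {d : Fin m // s ≤ d.val}, (if ∀ x ∈ (univ : Finset (Fin (d.1.val + 1))),
          ¬ cellT d.1.val d.1.isLt x ⊆ B then wt p B else 0) := by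
    intro B
    have hw := wt_nonneg h0 h1 B
    have n1 : 0 ≤ (if IsZeroForcing (H m s l) (B : Set (W m s l)) then wt p B else 0) := by
      split_ifs <;> simp [hw]
    have n2 : ∀ j ∈ (univ : Finset (Fin s)), 0 ≤ (if ∀ t ∈ (univ : Finset (Fin l)),
        ¬ pairT j t ⊆ B then wt p B else 0) := by
      intro j _; split_ifs <;> simp [hw]
    have n3 : ∀ d ∈ (univ : Finset {d : Fin m // s ≤ d.val}),
        0 ≤ (if ∀ x ∈ (univ : Finset (Fin (d.1.val + 1))),
          ¬ cellT d.1.val d.1.isLt x ⊆ B then wt p B else 0) := by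
      intro d _; split_ifs <;> simp [hw]
    by_cases hP : ∃ j : Fin s, ∀ t ∈ (univ : Finset (Fin l)), ¬ pairT j t ⊆ B
    · obtain ⟨j, hj⟩ := hP
      have := single_le_sum n2 (mem_univ j)
      rw [if_pos hj] at this
      have := sum_nonneg n3
      linarith
    · by_cases hL : ∃ d : {d : Fin m // s ≤ d.val}, ∀ x ∈ (univ : Finset (Fin (d.1.val + 1))),
          ¬ cellT d.1.val d.1.isLt x ⊆ B
      · obtain ⟨d, hd⟩ := hL
        have := single_le_sum n3 (mem_univ d)
        rw [if_pos hd] at this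
        have := sum_nonneg n2
        linarith
      · have hz : IsZeroForcing (H m s l) (B : Set (W m s l)) := by
          push Not at hP hL
          apply zeroForcing_of_ok
          · intro j
            obtain ⟨t, _, ht⟩ := hP j
            refine ⟨t.val, by omega, ?_, ?_⟩
            · exact mem_coe.2 (ht (by simp [pairT]))
            · exact mem_coe.2 (ht (by simp [pairT]))
          · intro d hsd hdm
            obtain ⟨x, _, hx⟩ := hL ⟨⟨d, hdm⟩, hsd⟩
            refine ⟨⟨x.val, by have := x.isLt; simp only at this; omega⟩,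
              ⟨d - x.val, by omega⟩, ?_, ?_⟩
            · have := x.isLt
              simp only at this ⊢
              omega
            · exact mem_coe.2 (hx (by simp [cellT]))
        rw [if_pos hz]
        have := sum_nonneg n2
        have := sum_nonneg n3
        linarith
  have total := sum_le_sum (s := univ) (fun B _ => key B)
  rw [sum_wt, sum_add_distrib, sum_add_distrib, sum_comm (s := univ) (t := univ)
    (f := fun B j => (if ∀ t ∈ (univ : Finset (Fin l)), ¬ pairT j t ⊆ B then wt p B else 0)),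
    sum_comm (s := univ) (t := univ)
    (f := fun B (d : {d : Fin m // s ≤ d.val}) => (if ∀ x ∈ (univ : Finset (Fin (d.1.val + 1))),
          ¬ cellT d.1.val d.1.isLt x ⊆ B then wt p B else 0))] at total
  have e1 : ∑ j : Fin s, ∑ B : Finset (W m s l), (if ∀ t ∈ (univ : Finset (Fin l)),
      ¬ pairT j t ⊆ B then wt p B else 0) = s * (1 - p ^ 2) ^ l := by
    rw [sum_congr rfl (fun j _ => prob_pairs p j)]
    simp
  have e2 : ∑ d : {d : Fin m // s ≤ d.val}, ∑ B : Finset (W m s l),
      (if ∀ x ∈ (univ : Finset (Fin (d.1.val + 1))),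
          ¬ cellT d.1.val d.1.isLt x ⊆ B then wt p B else 0) ≤ m * (1 - p) ^ s := by
    have hq0 : 0 ≤ 1 - p := by linarith
    have hq1 : 1 - p ≤ 1 := by linarith
    have : ∀ d ∈ (univ : Finset {d : Fin m // s ≤ d.val}), ∑ B : Finset (W m s l),
      (if ∀ x ∈ (univ : Finset (Fin (d.1.val + 1))),
          ¬ cellT d.1.val d.1.isLt x ⊆ B then wt p B else 0) ≤ (1 - p) ^ s := by
      intro d _
      rw [prob_layer]
      exact pow_le_pow_of_le_one hq0 hq1 (by have := d.2; omega)
    refine (sum_le_card_nsmul _ _ _ this).trans ?_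
    rw [nsmul_eq_mul]
    apply mul_le_mul_of_nonneg_right _ (by positivity)
    have : (univ : Finset {d : Fin m // s ≤ d.val}).card ≤ m := by
      rw [card_univ]
      calc Fintype.card {d : Fin m // s ≤ d.val} ≤ Fintype.card (Fin m) :=
            Fintype.card_subtype_le _
        _ = m := Fintype.card_fin m
    exact_mod_cast this
  rw [e1] at total
  linarith

/-! ### Transport along a bijection of the vertex sets -/

lemma blue_comap {V V' : Type*} (G : SimpleGraph V) (e : V' ≃ V) (B : Set V') (v : V) :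
    Blue G (e '' B) v → Blue (G.comap e) B (e.symm v) := by
  intro h
  induction h with
  | @init v hv =>
    obtain ⟨b, hb, rfl⟩ := hv
    simpa using Blue.init hb
  | @force u v _ huv _ ih1 ih2 =>
    refine Blue.force ih1 ?_ ?_
    · simpa using huv
    · intro w hw hne
      have := ih2 (e w) (by simpa using hw) (by intro h; exact hne (by rw [← h]; simp))
      simpa using this

lemma blue_comap' {V V' : Type*} (G : SimpleGraph V) (e : V' ≃ V) (B : Set V') (v : V') :
    Blue (G.comap e) B v → Blue G (e '' B) (e v) := by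
  intro h
  induction h with
  | @init v hv => exact Blue.init ⟨v, hv, rfl⟩
  | @force u v _ huv _ ih1 ih2 =>
    refine Blue.force ih1 (by simpa using huv) ?_
    intro w hw hne
    have := ih2 (e.symm w) (by simpa using hw) (by intro h; exact hne (by rw [← h]; simp))
    simpa using this

lemma zf_comap {V V' : Type*} (G : SimpleGraph V) (e : V' ≃ V) (B : Set V') :
    IsZeroForcing (G.comap e) B ↔ IsZeroForcing G (e '' B) := by
  constructor
  · intro h v
    have := blue_comap' G e B (e.symm v) (h _)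
    simpa using this
  · intro h v
    have := blue_comap G e B (e v) (h _)
    simpa using this

lemma zfProb_comap {V V' : Type*} [Fintype V] [Fintype V'] (G : SimpleGraph V) (e : V' ≃ V)
    (p : ℝ) : zfProb (G.comap e) p = zfProb G p := by
  classical
  unfold zfProb
  rw [Fintype.card_congr e]
  refine Fintype.sum_equiv (Equiv.finsetCongr e) _ _ ?_
  intro B
  have h1 : ((Equiv.finsetCongr e B : Finset V) : Set V) = e '' (B : Set V') := by
    simp [Equiv.finsetCongr_apply]
  have h2 : (Equiv.finsetCongr e B).card = B.card := by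
    simp [Equiv.finsetCongr_apply]
  have h3 := zf_comap G e (B : Set V')
  rw [h2]
  simp only [h1, h3]

/-! ### Existence of a threshold below a supercritical value -/

lemma blue_empty {V : Type*} (G : SimpleGraph V) (v : V) : ¬ Blue G (∅ : Set V) v := by
  intro h
  induction h with
  | init h => exact h
  | force _ _ _ ih _ => exact ih

lemma zfProb_zero {V : Type*} [Fintype V] [Nonempty V] (G : SimpleGraph V) : zfProb G 0 = 0 := by
  classical
  unfold zfProb
  apply sum_eq_zero
  intro B _
  split_ifs with h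
  · rcases B.eq_empty_or_nonempty with rfl | hne
    · exfalso
      obtain ⟨v⟩ := (inferInstance : Nonempty V)
      have := h v
      rw [coe_empty] at this
      exact blue_empty G v this
    · rw [zero_pow (by rw [Ne, card_eq_zero]; exact hne.ne_empty), zero_mul]
  · rfl

lemma zfProb_continuous {V : Type*} [Fintype V] (G : SimpleGraph V) :
    Continuous (fun p => zfProb G p) := by
  classical
  unfold zfProb
  apply continuous_finsetSum
  intro B _
  split_ifs
  · fun_prop
  · fun_prop

lemma exists_threshold {V : Type*} [Fintype V] [Nonempty V] (G : SimpleGraph V) {p₀ : ℝ}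
    (h0 : 0 ≤ p₀) (h1 : p₀ ≤ 1) (h : 1 / 2 < zfProb G p₀) :
    ∃ p, IsThreshold G p ∧ p < p₀ := by
  have hc := (zfProb_continuous G).continuousOn (s := Set.Icc 0 p₀)
  have := intermediate_value_Icc h0 hc
  have hmem : (1 / 2 : ℝ) ∈ Set.Icc (zfProb G 0) (zfProb G p₀) := by
    rw [zfProb_zero]
    exact ⟨by norm_num, h.le⟩
  obtain ⟨p, ⟨hp0, hp1⟩, hp⟩ := this hmem
  have hp' : zfProb G p = 1 / 2 := hp
  refine ⟨p, ⟨hp0, hp1.trans h1, hp'⟩, ?_⟩
  rcases hp1.lt_or_eq with h' | h'
  · exact h'
  · rw [h'] at hp'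
    linarith

/-! ### The clique -/

lemma clique_row (m s l : ℕ) : ∃ S : Finset (W m s l), (H m s l).IsNClique m S := by
  classical
  refine ⟨univ.map ⟨fun x : Fin m => Sum.inl (x, ⟨m, by omega⟩), ?_⟩, ?_⟩
  · intro a b h
    simpa using h
  · rw [SimpleGraph.isNClique_iff]
    constructor
    · intro a ha b hb hab
      simp only [coe_map, coe_univ, Set.image_univ,
        Set.mem_range] at ha hb
      obtain ⟨x, rfl⟩ := ha
      obtain ⟨y, rfl⟩ := hb
      rw [adj_iff]
      refine ⟨hab, Or.inl ?_⟩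
      simp only [adjRel]
      right; right
      refine ⟨rfl, rfl, ?_⟩
      intro h
      exact hab (by rw [Fin.ext h])
    · rw [card_map, card_univ, Fintype.card_fin]

lemma clique_comap {V V' : Type*} (G : SimpleGraph V) (e : V' ≃ V) (k : ℕ) (S : Finset V)
    (h : G.IsNClique k S) : ∃ S' : Finset V', (G.comap e).IsNClique k S' := by
  refine ⟨S.map e.symm.toEmbedding, ?_⟩
  rw [SimpleGraph.isNClique_iff] at h ⊢
  refine ⟨?_, by rw [card_map]; exact h.2⟩
  intro a ha b hb hab
  simp only [coe_map, Equiv.coe_toEmbedding, Set.mem_image, mem_coe] at ha hb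
  obtain ⟨x, hx, rfl⟩ := ha
  obtain ⟨y, hy, rfl⟩ := hb
  have := h.1 hx hy (by intro h; exact hab (by rw [h]))
  simpa using this

lemma card_W (m s l : ℕ) : Fintype.card (W m s l) = m * (m + 1) + s * (2 * l) := by
  simp [W, Fintype.card_sum, Fintype.card_prod]

/-! ### Numerical estimate -/

lemma small_tail (N : ℕ) (hN : 402 ≤ N) :
    ((N : ℝ) ^ 10 + (N : ℝ) ^ 14) * Real.exp (-(N : ℝ) ^ 2) < 1 / 2 := by
  have hN' : (402 : ℝ) ≤ N := by exact_mod_cast hN
  have hpos : (0 : ℝ) < N := by linarith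
  have h1 : ((N : ℝ) ^ 2) ^ 8 / (Nat.factorial 8 : ℝ) ≤ Real.exp ((N : ℝ) ^ 2) :=
    Real.pow_div_factorial_le_exp _ (by positivity) 8
  have hf : (Nat.factorial 8 : ℝ) = 40320 := by norm_num [Nat.factorial]
  rw [hf] at h1
  rw [Real.exp_neg, ← div_eq_mul_inv, div_lt_iff₀ (Real.exp_pos _)]
  have h2 : (N : ℝ) ^ 10 ≤ (N : ℝ) ^ 14 := pow_le_pow_right₀ (by linarith) (by norm_num)
  have h3 : (402 : ℝ) ^ 2 ≤ (N : ℝ) ^ 2 := by gcongr
  have h4 : (0 : ℝ) < (N : ℝ) ^ 14 := by positivity
  have h5 : ((N : ℝ) ^ 2) ^ 8 = (N : ℝ) ^ 14 * (N : ℝ) ^ 2 := by ring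
  nlinarith

theorem result : ¬ ∃ c : ℝ, 0 < c ∧ ∀ (n k : ℕ) (G : SimpleGraph (Fin n)) (p : ℝ),
    1 ≤ k → k ≤ n → (∃ S : Finset (Fin n), G.IsNClique k S) → IsThreshold G p →
    c * Real.sqrt ((k : ℝ) / (n : ℝ)) ≤ p := by
  rintro ⟨c, hc, hall⟩
  obtain ⟨N₁, hN₁⟩ := exists_nat_gt (2 / c)
  set N : ℕ := max 402 N₁ with hNdef
  have hN402 : 402 ≤ N := le_max_left _ _
  have hNc : 2 / c < (N : ℝ) := hN₁.trans_le (by exact_mod_cast le_max_right _ _)
  have hN' : (402 : ℝ) ≤ N := by exact_mod_cast hN402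
  have hpos : (0 : ℝ) < N := by linarith
  set m := N ^ 14 with hm
  set s := N ^ 10 with hs
  set l := N ^ 18 with hl
  set n := Fintype.card (W m s l) with hn
  set p₀ : ℝ := 1 / (N : ℝ) ^ 8 with hp₀
  have hp0 : 0 ≤ p₀ := by positivity
  have hp1 : p₀ ≤ 1 := by
    rw [hp₀, div_le_one (by positivity)]
    exact one_le_pow₀ (by linarith)
  have hprob : 1 / 2 < zfProb (H m s l) p₀ := by
    refine lt_of_lt_of_le ?_ (zfProb_ge hp0 hp1)
    have e1 : (1 - p₀ ^ 2) ^ l ≤ Real.exp (-(N : ℝ) ^ 2) := by
      have h1 : 1 - p₀ ^ 2 ≤ Real.exp (-(p₀ ^ 2)) := by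
        have := Real.add_one_le_exp (-(p₀ ^ 2)); linarith
      have h2 : 0 ≤ 1 - p₀ ^ 2 := by nlinarith
      calc (1 - p₀ ^ 2) ^ l ≤ (Real.exp (-(p₀ ^ 2))) ^ l := by gcongr
        _ = Real.exp (-(N : ℝ) ^ 2) := by
            rw [← Real.exp_nat_mul]
            congr 1
            rw [hl, hp₀]
            push_cast
            field_simp
    have e2 : (1 - p₀) ^ s ≤ Real.exp (-(N : ℝ) ^ 2) := by
      have h1 : 1 - p₀ ≤ Real.exp (-p₀) := by
        have := Real.add_one_le_exp (-p₀); linarith
      have h2 : 0 ≤ 1 - p₀ := by linarith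
      calc (1 - p₀) ^ s ≤ (Real.exp (-p₀)) ^ s := by gcongr
        _ = Real.exp (-(N : ℝ) ^ 2) := by
            rw [← Real.exp_nat_mul]
            congr 1
            rw [hs, hp₀]
            push_cast
            field_simp
    have e3 := small_tail N hN402
    have e4 : (s : ℝ) = (N : ℝ) ^ 10 := by rw [hs]; push_cast; ring
    have e5 : (m : ℝ) = (N : ℝ) ^ 14 := by rw [hm]; push_cast; ring
    rw [e4, e5]
    have e6 : (N : ℝ) ^ 10 * (1 - p₀ ^ 2) ^ l ≤ (N : ℝ) ^ 10 * Real.exp (-(N : ℝ) ^ 2) := by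
      gcongr
    have e7 : (N : ℝ) ^ 14 * (1 - p₀) ^ s ≤ (N : ℝ) ^ 14 * Real.exp (-(N : ℝ) ^ 2) := by
      gcongr
    linarith
  have hmpos : 0 < m := by rw [hm]; positivity
  have : Nonempty (W m s l) := ⟨Sum.inl (⟨0, hmpos⟩, ⟨0, by omega⟩)⟩
  obtain ⟨p, hp, hpp⟩ := exists_threshold (H m s l) hp0 hp1 hprob
  let e : Fin n ≃ W m s l := (Fintype.equivFin (W m s l)).symm
  obtain ⟨S, hS⟩ := clique_row m s l
  have hcl := clique_comap (H m s l) e m S hS
  have hthr : IsThreshold ((H m s l).comap e) p := by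
    refine ⟨hp.1, hp.2.1, ?_⟩
    rw [zfProb_comap]
    exact hp.2.2
  have hmn : m ≤ n := by
    rw [hn, card_W]
    nlinarith
  have hfin := hall n m _ p hmpos hmn hcl hthr
  have hncard : (n : ℝ) ≤ 4 * (N : ℝ) ^ 28 := by
    rw [hn, card_W, hm, hs, hl]
    push_cast
    have : (N : ℝ) ^ 14 ≤ (N : ℝ) ^ 28 := pow_le_pow_right₀ (by linarith) (by norm_num)
    nlinarith [this]
  have hnpos : (0 : ℝ) < n := by
    have : 0 < n := lt_of_lt_of_le hmpos hmn
    exact_mod_cast this
  have hsqrt : 1 / (2 * (N : ℝ) ^ 7) ≤ Real.sqrt ((m : ℝ) / (n : ℝ)) := by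
    apply Real.le_sqrt_of_sq_le
    rw [le_div_iff₀ hnpos]
    have e5 : (m : ℝ) = (N : ℝ) ^ 14 := by rw [hm]; push_cast; ring
    rw [e5]
    calc (1 / (2 * (N : ℝ) ^ 7)) ^ 2 * n ≤ (1 / (2 * (N : ℝ) ^ 7)) ^ 2 * (4 * (N : ℝ) ^ 28) := by
          gcongr
      _ = (N : ℝ) ^ 14 := by field_simp; norm_num
  have h8 : c * (1 / (2 * (N : ℝ) ^ 7)) ≤ p := (mul_le_mul_of_nonneg_left hsqrt hc.le).trans hfin
  have h9 : p₀ ≤ c * (1 / (2 * (N : ℝ) ^ 7)) := by
    rw [hp₀, mul_one_div, div_le_div_iff₀ (by positivity) (by positivity)]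
    have : 2 ≤ c * N := by
      rw [div_lt_iff₀ hc] at hNc
      linarith
    have h7 : (0 : ℝ) < (N : ℝ) ^ 7 := by positivity
    nlinarith
  linarith

end Pool.Agent.Results.MP_4451bf_co.CliqueThreshold
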